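import Pool.Agent.L7h4.FR.Five

/-! # Project F5 (helper4), part ALL (helper12) -/

set_option autoImplicit false

noncomputable section

namespace Pool.Agent.L7h12.F5

open Matrix Pool.Agent.L7h4.F5

theorem det_cj {n : ℕ} {P P' : Mat n} (h2 : P' * P = 1) (A : Mat n) : (P' * A * P).det = A.det := by
  rw [det_mul, det_mul]
  have h : P'.det * P.det = 1 := by rw [← det_mul, h2, det_one]
  linear_combination A.det * h

/-- the non scalar case -/
theorem main (h1 : S_TRI) (h2 : S_SCL) (h3 : S_ENT) (h4 : S_CON) (h6 : S_GCJ) (n : ℕ) (hn : 3 ≤ n)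
    (A : Mat n) (hA : A.det = 1 ∨ A.det = -1) :
    Good 5 A ∨ ∃ l : ℂ, l * l = 1 ∧ A = l • (1 : Mat n) := by
  rcases h1 n hn A hA with ⟨P, P', U, hP, hP', hU, hUp, hne⟩ | ⟨P, P', U, l, hP, hP', hU, hUp, hl, hd, h01⟩ | h
  · left
    refine h6 n 5 A P P' hP hP' ?_
    rw [hU]
    have hdU : U.det = A.det := by rw [← hU, det_cj hP']
    have hdd : U.det * U.det = 1 := by rcases hA with h | h <;> rw [hdU, h] <;> norm_num
    have hdU' : U.det = 1 ∨ U.det = -1 := by rw [hdU]; exact hA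
    obtain ⟨e1, e2⟩ := h3 n hn U hUp
    by_cases c1 : U.det * ((U * cyc n 1) ^ (n - 2)) ⟨n - 2, by omega⟩ ⟨0, by omega⟩ =
      1 + 1 * U.det * ((U * cyc n 1) ^ (n - 2)) ⟨0, by omega⟩ ⟨0, by omega⟩
    · by_cases c2 : U.det * ((U * cyc n (-1)) ^ (n - 2)) ⟨n - 2, by omega⟩ ⟨0, by omega⟩ =
        1 + (-1) * U.det * ((U * cyc n (-1)) ^ (n - 2)) ⟨0, by omega⟩ ⟨0, by omega⟩
      · exfalso
        have a1 := e1 1
        have a2 := e1 (-1)
        have a3 := e2 (-1) 1
        have hq0 : U ⟨0, by omega⟩ ⟨0, by omega⟩ * U (last n (by omega)) (last n (by omega)) ≠ 0 :=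
          mul_ne_zero (hUp.2 _) (hUp.2 _)
        rw [a3] at c2
        generalize ((U * cyc n 1) ^ (n - 2)) ⟨n - 2, by omega⟩ ⟨0, by omega⟩ = x at *
        generalize ((U * cyc n (-1)) ^ (n - 2)) ⟨n - 2, by omega⟩ ⟨0, by omega⟩ = y at *
        generalize ((U * cyc n 1) ^ (n - 2)) ⟨0, by omega⟩ ⟨0, by omega⟩ = z at *
        generalize U ⟨0, by omega⟩ ⟨0, by omega⟩ * U (last n (by omega)) (last n (by omega)) = q at *
        generalize U.det = d at *
        have hxy : x = y := by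
          apply mul_right_cancel₀ hq0
          rw [a1, a2]
        subst hxy
        apply hne
        have hs : d * x = 1 := by linear_combination (c1 + c2) / 2
        calc q = q * (d * x) := by rw [hs, mul_one]
          _ = d * (x * q) := by ring
          _ = 1 := by rw [a1, hdd]
      · exact h4 n hn U (-1) hUp hdU' (by norm_num) c2
    · exact h4 n hn U 1 hUp hdU' (by norm_num) c1
  · left
    obtain ⟨Q, Q', V, hQ, hQ', hV, hVp, hVd, hz⟩ := h2 n hn U l hUp hl hd h01
    refine h6 n 5 A P P' hP hP' ?_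
    rw [hU]
    refine h6 n 5 U Q Q' hQ hQ' ?_
    rw [hV]
    have hdU : U.det = A.det := by rw [← hU, det_cj hP']
    have hdV : V.det = A.det := by rw [← hV, det_cj hQ', hdU]
    have hdd : V.det * V.det = 1 := by rcases hA with h | h <;> rw [hdV, h] <;> norm_num
    have hdV' : V.det = 1 ∨ V.det = -1 := by rw [hdV]; exact hA
    obtain ⟨e1, e2⟩ := h3 n hn V hVp
    refine h4 n hn V 1 hVp hdV' (by norm_num) ?_
    have a1 := e1 1
    rw [hVd, hVd, hl, mul_one] at a1
    rw [a1, hdd]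
    intro hc
    have hd0 : V.det ≠ 0 := by
      intro h0; rw [h0] at hdd; norm_num at hdd
    have : V.det * ((V * cyc n 1) ^ (n - 2)) ⟨0, by omega⟩ ⟨0, by omega⟩ = 0 := by
      linear_combination -hc
    rcases mul_eq_zero.1 this with h | h
    · exact hd0 h
    · exact hz h
  · exact Or.inr h

theorem s_ALL (h1 : S_TRI) (h2 : S_SCL) (h3 : S_ENT) (h4 : S_CON) (h5 : S_IDN) (h6 : S_GCJ) : S_ALL := by
  constructor
  · intro n hn A hA
    rcases main h1 h2 h3 h4 h6 n (by omega) A hA with h | ⟨l, hl, rfl⟩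
    · exact h
    · exact h5 n hn l hl
  · intro A hA hA1 hA2
    rcases main h1 h2 h3 h4 h6 3 le_rfl A hA with h | ⟨l, hl, rfl⟩
    · exact h
    · exfalso
      rcases mul_self_eq_one_iff.1 hl with h | h
      · exact hA1 (by rw [h, one_smul])
      · exact hA2 (by rw [h, neg_smul, one_smul])

end Pool.Agent.L7h12.F5
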