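import Pool.Agent.L7h4.FR.Five

/-! # Project F5 (helper4), part GCJ (helper12) -/

set_option autoImplicit false

noncomputable section

namespace Pool.Agent.L7h12.F5

open Matrix Pool.Agent.L7h4.F5

/-- conjugation as a monoid homomorphism -/
def cj {n : ℕ} (P P' : Mat n) (h1 : P * P' = 1) (h2 : P' * P = 1) : Mat n →* Mat n where
  toFun X := P * X * P'
  map_one' := by simp [h1]
  map_mul' X Y := by
    calc P * (X * Y) * P' = P * X * (1 : Mat n) * Y * P' := by simp only [mul_assoc, one_mul]
      _ = P * X * P' * (P * Y * P') := by rw [← h2]; simp only [mul_assoc]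

theorem s_GCJ : S_GCJ := by
  rintro n m A P P' h1 h2 ⟨L, hL, hprod, Q, Q', hQ1, hQ2, hk⟩
  refine ⟨fun i => cj P P' h1 h2 (L i), fun i => ?_, ?_, P * Q, Q' * P', ?_, ?_, fun k => ?_⟩
  · rw [← map_mul, hL i, map_one]
  · have : (List.ofFn fun i => cj P P' h1 h2 (L i)) = (List.ofFn L).map (cj P P' h1 h2) := by
      rw [List.map_ofFn]; rfl
    rw [this, ← map_list_prod, hprod]
    show P * (P' * A * P) * P' = A
    calc P * (P' * A * P) * P' = (P * P') * A * (P * P') := by simp only [mul_assoc]
      _ = A := by rw [h1]; simp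
  · calc P * Q * (Q' * P') = P * (Q * Q') * P' := by simp only [mul_assoc]
      _ = 1 := by rw [hQ1]; simp [h1]
  · calc Q' * P' * (P * Q) = Q' * (P' * P) * Q := by simp only [mul_assoc]
      _ = 1 := by rw [h2]; simp [hQ2]
  · obtain ⟨w, hw, hwk, hT⟩ := hk k
    refine ⟨w, hw, hwk, ?_⟩
    have e : P * Q * (1 + vecMulVec w (Pi.single k 1)) * (Q' * P') =
        cj P P' h1 h2 (Q * (1 + vecMulVec w (Pi.single k 1)) * Q') := by
      show _ = P * (Q * (1 + vecMulVec w (Pi.single k 1)) * Q') * P'
      simp only [mul_assoc]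
    rw [e]
    have hr : (Set.range fun i => cj P P' h1 h2 (L i)) = (cj P P' h1 h2) '' Set.range L := by
      rw [← Set.range_comp]; rfl
    rw [hr, ← MonoidHom.map_mclosure]
    exact Submonoid.mem_map_of_mem _ hT

end Pool.Agent.L7h12.F5
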